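import Pool.Agent.Y192.KC.Stm2
import Pool.Agent.Y192.OG.D3
import Pool.Agent.Y833.OG.Hat
import Pool.Agent.Y852.OG.Ring

/-!
# One step of the reduction for curves in covers of subvarieties of tori
-/

set_option autoImplicit false
set_option linter.unusedSectionVars false

namespace Pool.Agent.Y317.KG

open MvPolynomial Metric Filter Topology FF Pool.Agent.W602.GT Pool.Agent.Y192.OG
open Pool.Agent.W603.BP Pool.Agent.Y192.KC

section alg

variable {N : ℕ} {K : Type} [Field K] [Algebra ℂ K] {x : Fin N → Kˣ}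
  {Γ : Submodule ℤ (Fin N → ℤ)} {b : ℕ} {bt : Fin b → Fin N → ℤ}
  {co : (Fin N → ℤ) →+ (Fin b → ℤ)}

theorem mono_of (hsp : ∀ m : Fin N → ℤ, ∃ c : F0 x Γ, c ≠ 0 ∧
    (xm x m : K) = (c : K) * ∏ j, (xm x (bt j) : K) ^ co m j) (m : Fin N → ℤ) (a : ℂ) :
    ∃ M0 : ℕ, ∀ M, M0 ≤ M → ∃ P : MvPolynomial (Fin b) (F0 x Γ),
      aeval (fun j => (xm x (bt j) : K)) P =
        ep x (AddMonoidAlgebra.single m a) * (∏ j, (xm x (bt j) : K)) ^ M := by
  classical
  obtain ⟨c, -, hc⟩ := hsp m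
  refine ⟨∑ j, (co m j).natAbs, fun M hM => ?_⟩
  have h1 : ∀ j, 0 ≤ co m j + M := by
    intro j
    have h2 : (co m j).natAbs ≤ ∑ j, (co m j).natAbs :=
      Finset.single_le_sum (f := fun j => (co m j).natAbs) (fun _ _ => Nat.zero_le _)
        (Finset.mem_univ j)
    omega
  refine ⟨monomial (Finsupp.equivFunOnFinite.symm fun j => (co m j + M).toNat) (a • c), ?_⟩
  rw [aeval_monomial, Finsupp.prod_fintype _ _ (fun j => pow_zero _), ep_single, hc,
    ← Finset.prod_pow]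
  have h2 : ∀ j, (xm x (bt j) : K) ^ (Finsupp.equivFunOnFinite.symm
      (fun j => (co m j + M).toNat) : Fin b →₀ ℕ) j = (xm x (bt j) : K) ^ co m j *
        (xm x (bt j) : K) ^ M := by
    intro j
    change (xm x (bt j) : K) ^ (co m j + M).toNat = _
    rw [← zpow_natCast (xm x (bt j) : K) (co m j + M).toNat, Int.toNat_of_nonneg (h1 j),
      zpow_add₀ (xm x (bt j)).ne_zero, zpow_natCast]
  rw [Finset.prod_congr rfl fun j _ => h2 j, Finset.prod_mul_distrib]
  have h3 : algebraMap (F0 x Γ) K (a • c) = a • (c : K) := rfl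
  rw [h3, smul_mul_assoc, smul_mul_assoc, mul_assoc]

theorem pol_of (hsp : ∀ m : Fin N → ℤ, ∃ c : F0 x Γ, c ≠ 0 ∧
    (xm x m : K) = (c : K) * ∏ j, (xm x (bt j) : K) ^ co m j) (f : Lau N) :
    ∃ M0 : ℕ, ∀ M, M0 ≤ M → ∃ P : MvPolynomial (Fin b) (F0 x Γ),
      aeval (fun j => (xm x (bt j) : K)) P = ep x f * (∏ j, (xm x (bt j) : K)) ^ M := by
  classical
  choose M0 hM0 using fun m => mono_of hsp m (f.coeff m)
  refine ⟨∑ m ∈ f.coeff.support, M0 m, fun M hM => ?_⟩
  have h1 : ∀ m : f.coeff.support, ∃ P : MvPolynomial (Fin b) (F0 x Γ),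
      aeval (fun j => (xm x (bt j) : K)) P =
        ep x (AddMonoidAlgebra.single (m : Fin N → ℤ) (f.coeff m)) *
          (∏ j, (xm x (bt j) : K)) ^ M := by
    intro m
    refine hM0 m M (le_trans ?_ hM)
    exact Finset.single_le_sum (f := M0) (fun _ _ => Nat.zero_le _) m.2
  choose P hP using h1
  refine ⟨∑ m, P m, ?_⟩
  rw [map_sum, Finset.sum_congr rfl fun m _ => hP m, ← Finset.sum_mul]
  congr 1
  have h2 : f = ∑ m ∈ f.coeff.support, AddMonoidAlgebra.single m (f.coeff m) :=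
    (AddMonoidAlgebra.sum_coeff_single f).symm
  conv_rhs => rw [h2, map_sum]
  exact Finset.sum_coe_sort f.coeff.support
    (fun m => ep x (AddMonoidAlgebra.single m (f.coeff m)))

theorem co_sum (co : (Fin N → ℤ) →+ (Fin b → ℤ)) (l' : Fin b → ℤ) (m : Fin N → ℤ) :
    ∑ i, (∑ k, l' k * co (Pi.single i 1) k) * m i = ∑ k, l' k * co m k := by
  have hm : co m = ∑ i, m i • co (Pi.single i 1) := by
    have h1 : m = ∑ i, m i • (Pi.single i (1 : ℤ) : Fin N → ℤ) := by
      funext k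
      simp [Finset.sum_apply, Pi.single_apply]
    conv_lhs => rw [h1]
    rw [map_sum]
    exact Finset.sum_congr rfl fun i _ => map_zsmul _ _ _
  rw [hm]
  simp only [Finset.sum_apply, Pi.smul_apply, smul_eq_mul, Finset.mul_sum, Finset.sum_mul]
  rw [Finset.sum_comm]
  exact Finset.sum_congr rfl fun i _ => Finset.sum_congr rfl fun k _ => by ring

theorem case1 (hlift : St_lift) (hS : Splt Γ bt co)
    (hind : AlgebraicIndependent (F0 x Γ) (fun j => (xm x (bt j) : K))) {r : ℕ}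
    (F : Fin r → Lau N) (e : Fin r → ℕ) (M : ℕ) (P H S : Fin r → MvPolynomial (Fin b) (F0 x Γ))
    (hP : ∀ j, aeval (fun j => (xm x (bt j) : K)) (P j) =
      ep x (F j) * (∏ j, (xm x (bt j) : K)) ^ M)
    (hP0 : ∀ j, P j ≠ 0) (hPHS : ∀ j, P j = H j * S j ^ e j)
    (hS0 : ∀ j, S j ≠ 0) (l' : Fin b → ℤ) (hl' : l' ≠ 0) (hH : ∀ j, HomL l' (H j)) :
    ∃ l : Fin N → ℤ, l ≠ 0 ∧ (∀ m ∈ Γ, ∑ i, l i * m i = 0) ∧
      ∃ (A D S : Fin r → Lau N) (a : Fin r → Fin N → ℤ), ∀ j,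
        (∀ m ∈ (D j).coeff.support, m ∈ Γ) ∧ (∀ m ∈ (A j).coeff.support, ∑ i, l i * m i = 0) ∧
        ep x (D j) ≠ 0 ∧ ep x (A j) ≠ 0 ∧ ep x (S j) ≠ 0 ∧
        ep x (D j * F j) = ep x (A j * AddMonoidAlgebra.single (a j) 1 * S j ^ e j) := by
  classical
  have hX0 : (∏ j, (xm x (bt j) : K)) ≠ 0 :=
    Finset.prod_ne_zero_iff.2 fun j _ => (xm x (bt j)).ne_zero
  have hH0 : ∀ j, H j ≠ 0 := by
    intro j h
    apply hP0 j
    rw [hPHS, h, zero_mul]
  obtain ⟨g0, hg0s, hg0, hA⟩ := hlift N K x Γ b bt co hS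
    (Finset.univ.image H ∪ Finset.univ.image S)
  have h1 : ∀ j, ∃ A : Lau N, ep x A = ep x g0 * aeval (fun j => (xm x (bt j) : K)) (H j) ∧
      ∀ m ∈ A.coeff.support, ∃ c ∈ (H j).support, co m = fun j => (c j : ℤ) := fun j =>
    hA (H j) (Finset.mem_union_left _ (Finset.mem_image_of_mem _ (Finset.mem_univ j)))
  have h2 : ∀ j, ∃ A : Lau N, ep x A = ep x g0 * aeval (fun j => (xm x (bt j) : K)) (S j) := by
    intro j
    obtain ⟨A, hA1, -⟩ := hA (S j)
      (Finset.mem_union_right _ (Finset.mem_image_of_mem _ (Finset.mem_univ j)))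
    exact ⟨A, hA1⟩
  choose A' hA' hA's using h1
  choose S' hS' using h2
  have hne : ∀ Q : MvPolynomial (Fin b) (F0 x Γ), Q ≠ 0 →
      aeval (fun j => (xm x (bt j) : K)) Q ≠ 0 := fun Q hQ =>
    (map_ne_zero_iff _ hind).2 hQ
  have hA'0 : ∀ j, ep x (A' j) ≠ 0 := fun j => by
    rw [hA']
    exact mul_ne_zero hg0 (hne _ (hH0 j))
  have hS'0 : ∀ j, ep x (S' j) ≠ 0 := fun j => by
    rw [hS']
    exact mul_ne_zero hg0 (hne _ (hS0 j))
  have h3 : ∀ j, ∃ t, t ∈ (A' j).coeff.support := by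
    intro j
    by_contra hcon
    push Not at hcon
    apply hA'0 j
    have h4 : A' j = 0 := by
      rw [← AddMonoidAlgebra.sum_coeff_single (A' j)]
      exact Finset.sum_eq_zero fun m hm => absurd hm (hcon m)
    rw [h4, map_zero]
  choose t ht using h3
  set l : Fin N → ℤ := fun i => ∑ k, l' k * co (Pi.single i 1) k with hl
  have hlm : ∀ m, ∑ i, l i * m i = ∑ k, l' k * co m k := fun m => co_sum co l' m
  refine ⟨l, ?_, ?_, fun j => A' j * AddMonoidAlgebra.single (-(t j)) 1,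
    fun j => g0 ^ (1 + e j), S', fun j => t j - (M : ℤ) • ∑ k, bt k, fun j => ?_⟩
  · intro h
    apply hl'
    funext j
    have h4 := hlm (bt j)
    rw [h, hS.bt] at h4
    simp only [Pi.zero_apply, zero_mul, Finset.sum_const_zero] at h4
    rw [Finset.sum_eq_single j] at h4
    · rw [Pi.single_eq_same, mul_one] at h4
      rw [← h4, Pi.zero_apply]
    · intro k _ hk
      rw [Pi.single_eq_of_ne hk, mul_zero]
    · intro h5
      exact absurd (Finset.mem_univ j) h5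
  · intro m hm
    rw [hlm, (hS.ker m).2 hm]
    simp
  · have hD : ep x (g0 ^ (1 + e j)) ≠ 0 := by
      rw [map_pow]
      exact pow_ne_zero _ hg0
    refine ⟨fun m hm => ?_, fun m hm => ?_, hD, ?_, hS'0 j, ?_⟩
    · rw [← hS.ker]
      exact supp_pow_co hS hg0s _ m hm
    · obtain ⟨m1, h1, m2, h2, rfl⟩ := Pool.Agent.Y290.OG.supp_mul _ _ m hm
      rw [Pool.Agent.Y290.OG.supp_single _ _ _ h2]
      have h4 : ∑ i, l i * (m1 + -(t j)) i = ∑ i, l i * m1 i - ∑ i, l i * t j i := by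
        rw [← Finset.sum_sub_distrib]
        refine Finset.sum_congr rfl fun i _ => ?_
        rw [Pi.add_apply, Pi.neg_apply]
        ring
      rw [h4, hlm, hlm]
      obtain ⟨α, hα⟩ := hH j
      obtain ⟨c1, hc1, hc1'⟩ := hA's j m1 h1
      obtain ⟨c2, hc2, hc2'⟩ := hA's j (t j) (ht j)
      rw [hc1', hc2', hα c1 hc1, hα c2 hc2, sub_self]
    · rw [map_mul, ep_single_one]
      exact mul_ne_zero (hA'0 j) (Units.ne_zero _)
    · have e1 : (xm x (t j - (M : ℤ) • ∑ k, bt k) : K) = (xm x (t j) : K) *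
          ((∏ j, (xm x (bt j) : K)) ^ M)⁻¹ := by
        rw [sub_eq_add_neg, xm_add, xm_neg, Pool.Agent.Y809.OG.xm_zsmul,
          Pool.Agent.Y809.OG.xm_sum, zpow_natCast, Units.val_mul, Units.val_inv_eq_inv_val,
          Units.val_pow_eq_pow_val, Units.coe_prod]
      have e2 : (xm x (-(t j)) : K) = (xm x (t j) : K)⁻¹ := by
        rw [xm_neg, Units.val_inv_eq_inv_val]
      have e3 : (xm x (t j) : K) ≠ 0 := Units.ne_zero _
      have e4 : aeval (fun j => (xm x (bt j) : K)) (H j) *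
          aeval (fun j => (xm x (bt j) : K)) (S j) ^ e j =
            ep x (F j) * (∏ j, (xm x (bt j) : K)) ^ M := by
        rw [← hP, hPHS j, map_mul, map_pow]
      rw [map_mul, map_mul, map_mul, map_mul, map_pow, map_pow, ep_single_one, ep_single_one, hA',
        hS', e1, e2]
      have e5 : ((∏ j, (xm x (bt j) : K)) ^ M) ≠ 0 := pow_ne_zero _ hX0
      rw [mul_pow]
      calc ep x g0 ^ (1 + e j) * ep x (F j) = ep x g0 ^ (1 + e j) * (ep x (F j) *
            (∏ j, (xm x (bt j) : K)) ^ M) * ((∏ j, (xm x (bt j) : K)) ^ M)⁻¹ := by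
            field_simp
        _ = _ := by
            rw [← e4, pow_add, pow_one]
            field_simp

end alg

section val

variable {N : ℕ} {K : Type} [Field K] [Algebra ℂ K]

/-- The ring of fractions with powers of one denominator. -/
noncomputable def RR (x : Fin N → Kˣ) (g0 : Lau N) : Subring K where
  carrier := {y | ∃ (a : Lau N) (s : ℕ), y * ep x g0 ^ s = ep x a}
  mul_mem' := by
    rintro y y' ⟨a, s, h⟩ ⟨a', s', h'⟩
    refine ⟨a * a', s + s', ?_⟩
    rw [map_mul, ← h, ← h', pow_add]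
    ring
  one_mem' := ⟨1, 0, by rw [pow_zero, map_one, mul_one]⟩
  add_mem' := by
    rintro y y' ⟨a, s, h⟩ ⟨a', s', h'⟩
    refine ⟨a * g0 ^ s' + a' * g0 ^ s, s + s', ?_⟩
    rw [map_add, map_mul, map_mul, map_pow, map_pow, ← h, ← h', pow_add]
    ring
  zero_mem' := ⟨0, 0, by rw [zero_mul, map_zero]⟩
  neg_mem' := by
    rintro y ⟨a, s, h⟩
    exact ⟨-a, s, by rw [map_neg, ← h, neg_mul]⟩

/-- The valuation. -/
noncomputable def vv (x : Fin N → Kˣ) (g0 : Lau N) (c : Curve N) (z : ℂ) (y : RR x g0) :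
    WithTop ℤ :=
  c.ord z (c.ev (Classical.choose y.2))

theorem ord_one (c : Curve N) {z : ℂ} (hz : z ∈ Ext c.r0) : c.ord z 1 = 0 := by
  have h := ((Pool.Agent.Y852.OG.t_ord N c).1 z hz).2.2.2.2.2 0
  rw [c.mon_zero] at h
  rw [h]
  unfold Curve.del
  simp

theorem ord_pow_zero (c : Curve N) {z : ℂ} (hz : z ∈ Ext c.r0) {f : c.Mr} (hf : c.ord z f = 0)
    (n : ℕ) : c.ord z (f ^ n) = 0 := by
  induction n with
  | zero => rw [pow_zero, ord_one c hz]
  | succ n ih => rw [pow_succ, ((Pool.Agent.Y852.OG.t_ord N c).1 z hz).1, ih, hf, add_zero]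

variable {x : Fin N → Kˣ} {g0 : Lau N} {c : Curve N} {z : ℂ}

theorem vv_eq (hz : z ∈ Ext c.r0) (hk : ∀ g, ep x g = 0 → c.ev g = 0)
    (h0 : c.ord z (c.ev g0) = 0) (y : RR x g0) (a : Lau N) (s : ℕ)
    (h : (y : K) * ep x g0 ^ s = ep x a) : vv x g0 c z y = c.ord z (c.ev a) := by
  obtain ⟨s', h'⟩ := Classical.choose_spec y.2
  unfold vv
  set a' := Classical.choose y.2
  have h1 : ep x (a * g0 ^ s' - a' * g0 ^ s) = 0 := by
    rw [map_sub, map_mul, map_mul, map_pow, map_pow, ← h, ← h']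
    ring
  have h2 := hk _ h1
  rw [map_sub, map_mul, map_mul, map_pow, map_pow, sub_eq_zero] at h2
  have h3 := congrArg (c.ord z) h2
  rw [((Pool.Agent.Y852.OG.t_ord N c).1 z hz).1, ((Pool.Agent.Y852.OG.t_ord N c).1 z hz).1,
    ord_pow_zero c hz h0, ord_pow_zero c hz h0, add_zero, add_zero] at h3
  exact h3.symm

theorem vv_isV (hz : z ∈ c.U) (hk : ∀ g, ep x g = 0 → c.ev g = 0)
    (h0 : c.ord z (c.ev g0) = 0) : IsV (vv x g0 c z) := by
  have hz' := hz.1
  obtain ⟨hmul, hadd, -, hnn, -, -⟩ := (Pool.Agent.Y852.OG.t_ord N c).1 z hz'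
  refine ⟨?_, fun y y' => ?_, fun y y' => ?_, fun y => ?_⟩
  · rw [vv_eq hz' hk h0 1 1 0 (by rw [pow_zero, map_one, mul_one]; rfl), map_one, ord_one c hz']
  · obtain ⟨a, s, h⟩ := y.2
    obtain ⟨a', s', h'⟩ := y'.2
    rw [vv_eq hz' hk h0 y a s h, vv_eq hz' hk h0 y' a' s' h',
      vv_eq hz' hk h0 (y * y') (a * a') (s + s') (by
        rw [map_mul, ← h, ← h', pow_add, Subring.coe_mul]
        ring), map_mul, hmul]
  · obtain ⟨a, s, h⟩ := y.2
    obtain ⟨a', s', h'⟩ := y'.2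
    rw [vv_eq hz' hk h0 y a s h, vv_eq hz' hk h0 y' a' s' h',
      vv_eq hz' hk h0 (y + y') (a * g0 ^ s' + a' * g0 ^ s) (s + s') (by
        rw [map_add, map_mul, map_mul, map_pow, map_pow, ← h, ← h', pow_add, Subring.coe_add]
        ring), map_add, map_mul, map_mul, map_pow, map_pow]
    refine le_trans (le_of_eq ?_) (hadd _ _)
    rw [hmul, hmul, ord_pow_zero c hz' h0, ord_pow_zero c hz' h0, add_zero, add_zero]
  · exact hnn hz _

theorem ord_ge {m : ℕ} (hz : z ∈ Ext c.r0) {i : Fin (N + 1)} (h : c.X i z = 0)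
    (hd : (m : ℤ) ∣ c.oX i z) : (m : ℕ∞) ≤ analyticOrderAt (c.X i) z := by
  have h1 : analyticOrderAt (c.X i) z ≠ ⊤ := by
    rw [ne_eq, analyticOrderAt_eq_top]
    intro h2
    have h3 := c.X_punct i hz
    obtain ⟨w, hw1, hw2⟩ := ((h2.filter_mono nhdsWithin_le_nhds).and h3).exists
    exact hw2 hw1
  have h2 : analyticOrderAt (c.X i) z ≠ 0 := by
    rw [ne_eq, (c.an i z hz).analyticOrderAt_eq_zero]
    exact not_not.2 h
  obtain ⟨n, hn⟩ := ENat.ne_top_iff_exists.1 h1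
  unfold Curve.oX at hd
  rw [← hn] at h2 hd ⊢
  rw [ENat.toNat_natCast] at hd
  have h3 : m ∣ n := by exact_mod_cast hd
  have h4 : n ≠ 0 := by
    intro h5
    apply h2
    rw [h5]
    rfl
  exact_mod_cast Nat.le_of_dvd (Nat.pos_of_ne_zero h4) h3

end val

theorem t_step (hbad : St_badG) (hT : St_T) (hsplit : St_split) (hlift : St_lift) : St_step := by
  intro N r K _ _ x Γ₀ hsat hhom hleast F e hF
  classical
  obtain ⟨b, bt, co, hker, hbt⟩ := Pool.Agent.Y833.OG.basis_exists Γ₀ hsat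
  have hS : Splt Γ₀ bt co := ⟨hker, hbt⟩
  obtain ⟨hind, hsp⟩ := hsplit N K x Γ₀ b bt co hS hhom
  have hchar : CharZero (F0 x Γ₀) :=
    charZero_of_injective_algebraMap (algebraMap ℂ (F0 x Γ₀)).injective
  choose M0 hM0 using fun j => pol_of hsp (F j)
  obtain ⟨M, hM⟩ : ∃ M, ∀ j, M0 j ≤ M := ⟨∑ j, M0 j, fun j =>
    Finset.single_le_sum (f := M0) (fun _ _ => Nat.zero_le _) (Finset.mem_univ j)⟩
  choose P hP using fun j => hM0 j M (hM j)
  have hX0 : (∏ j, (xm x (bt j) : K)) ≠ 0 :=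
    Finset.prod_ne_zero_iff.2 fun j _ => (xm x (bt j)).ne_zero
  have hP0 : ∀ j, P j ≠ 0 := by
    intro j h
    have h1 := hP j
    rw [h, map_zero] at h1
    exact mul_ne_zero (hF j) (pow_ne_zero _ hX0) h1.symm
  obtain ⟨g, H, S, m1, Z, hsq, hPHS, hHom, hval⟩ :=
    hbad (F0 x Γ₀) K b r (fun j => (xm x (bt j) : K)) P e hind hP0
  by_cases hl : ∃ l' : Fin b → ℤ, l' ≠ 0 ∧ HomL l' g
  · left
    obtain ⟨l', hl0, hlg⟩ := hl
    refine case1 hlift hS hind F e M P H (fun j => if e j = 0 then 1 else S j) hP hP0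
      (fun j => ?_) (fun j => ?_) l' hl0 (hHom l' hlg)
    · by_cases hj : e j = 0
      · rw [if_pos hj, hPHS j, hj, pow_zero, pow_zero]
      · rw [if_neg hj, hPHS j]
    · by_cases hj : e j = 0
      · rw [if_pos hj]
        exact one_ne_zero
      · rw [if_neg hj]
        intro h
        apply hP0 j
        rw [hPHS j, h, zero_pow hj, mul_zero]
  · right
    push Not at hl
    obtain ⟨g0, hg0s, hg0, hA⟩ := hlift N K x Γ₀ b bt co hS (insert g Z)
    obtain ⟨f, hf, -⟩ := hA g (Finset.mem_insert_self _ _)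
    have hgT : (⟨ep x g0, ep_mem hg0s⟩ : F0 x Γ₀) ≠ 0 := by
      intro h
      exact hg0 (congrArg Subtype.val h)
    obtain ⟨μ1, G1, hG1, hc1⟩ := hT N K x Γ₀ hsat hhom hleast b bt co hS g ⟨ep x g0, ep_mem hg0s⟩ f
      hsq.ne_zero hsq hgT hf hl
    refine ⟨max (max μ1 m1) 1, G1 * ∏ j, F j, g0, ?_, hg0, hg0s, fun m hm c hadm hk hW hG => ?_⟩
    · rw [map_mul, map_prod]
      exact mul_ne_zero hG1 (Finset.prod_ne_zero_iff.2 fun j _ => hF j)
    · have hμ : μ1 ≤ m := le_trans (le_trans (le_max_left _ _) (le_max_left _ _)) hm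
      have hm1 : m1 ≤ m := le_trans (le_trans (le_max_right _ _) (le_max_left _ _)) hm
      have h1 : c.ev G1 ≠ 0 := fun h => hG (by rw [map_mul, h, zero_mul])
      have h2 : ∀ j, c.ev (F j) ≠ 0 := fun j h => hG (by
        rw [map_mul, map_prod, Finset.prod_eq_zero (Finset.mem_univ j) h, mul_zero])
      refine hc1 c (fun z hz hi => ?_) hk (fun z hz => ?_) h1
      · obtain ⟨i, hi⟩ := hi
        exact ⟨i, le_trans (by exact_mod_cast hμ) (ord_ge hz hi (hadm.div i z hz))⟩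
      · have hz' := hz.1
        have h0 := hW z hz
        have hmem : ∀ (Q : MvPolynomial (Fin b) (F0 x Γ₀)) (A : Lau N),
            ep x A = ep x g0 * aeval (fun j => (xm x (bt j) : K)) Q →
            aeval (fun j => (xm x (bt j) : K)) Q * ep x g0 ^ 1 = ep x A := by
          intro Q A h
          rw [h, pow_one, mul_comm]
        have hPe : ∀ j, aeval (fun j => (xm x (bt j) : K)) (P j) * ep x g0 ^ 0 =
            ep x (F j * AddMonoidAlgebra.single ((M : ℤ) • ∑ k, bt k) 1) := by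
          intro j
          rw [pow_zero, mul_one, hP, map_mul, ep_single_one, Pool.Agent.Y809.OG.xm_zsmul,
            Pool.Agent.Y809.OG.xm_sum, zpow_natCast, Units.val_pow_eq_pow_val, Units.coe_prod]
        have hXe : ∀ i, (xm x (bt i) : K) * ep x g0 ^ 0 =
            ep x (AddMonoidAlgebra.single (bt i) 1) := by
          intro i
          rw [pow_zero, mul_one, ep_single_one]
        have hmon : ∀ m' : Fin N → ℤ,
            c.ord z (c.ev (AddMonoidAlgebra.single m' (1 : ℂ))) = 0 := by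
          intro m'
          rw [c.ev_single, one_smul, ((Pool.Agent.Y852.OG.t_ord N c).1 z hz').2.2.2.2.2,
            (Pool.Agent.Y852.OG.t_ord N c).2.1 z hz]
          rfl
        have key := hval m hm1 (RR x g0) (vv x g0 c z) (vv_isV hz hk h0)
          (fun Q hQ => by
            obtain ⟨A, hA1, -⟩ := hA Q (Finset.mem_insert_of_mem hQ)
            exact ⟨A, 1, hmem Q A hA1⟩)
          ⟨_, ⟨f, 1, hmem g f hf⟩⟩ (fun j => ⟨_, ⟨_, 0, hPe j⟩⟩) (fun i => ⟨_, ⟨_, 0, hXe i⟩⟩)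
          rfl (fun _ => rfl) (fun _ => rfl)
          (fun i => by
            rw [vv_eq hz' hk h0 _ _ 0 (hXe i)]
            exact hmon _)
          (fun j => by
            obtain ⟨a, ha⟩ := hadm.root j (h2 j) z hz'
            refine ⟨a, ?_⟩
            rw [vv_eq hz' hk h0 _ _ 0 (hPe j), map_mul,
              ((Pool.Agent.Y852.OG.t_ord N c).1 z hz').1, hmon, add_zero, ha])
        rwa [vv_eq hz' hk h0 _ _ 1 (hmem g f hf)] at key

end Pool.Agent.Y317.KG
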